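import Pool.Agent.Helper17.OD.GoalsCV

/-!
# Packet MIN: a minimal counterexample
-/

namespace Pool.Agent.Helper17.OD.PkMIN

open Pool.Agent.Helper17.OD
open Set

/-- There is a bad function with values below `τ`. -/
def Bad (k w τ : O) (S' : Set (Set T)) : Prop :=
  ∃ c : T → T, OrdFn w τ c ∧ gr (D (Iio w)) c ∈ S' ∧ gr (D (Iio w)) c ∉ Con k

theorem mem_gr {A : Set T} {f : T → T} {a y : T} : Tr.pr a y ∈ gr A f ↔ a ∈ A ∧ y = f a := by
  constructor
  · rintro ⟨x, hx, h⟩
    simp only [Tr.pr.injEq] at h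
    obtain ⟨rfl, rfl⟩ := h
    exact ⟨hx, rfl⟩
  · rintro ⟨ha, rfl⟩
    exact ⟨a, ha, rfl⟩

theorem gr_sub {w d : O} {c : T → T} (hw : w ≤ d) (hc : OrdFn w d c) :
    gr (D (Iio w)) c ⊆ D (Iio d) := by
  rintro p ⟨a, ha, rfl⟩
  exact pr_mem.2 ⟨D_mono (Iio_subset_Iio hw) ha, (hc a ha).2⟩

theorem isOrd_eq {t : T} (h : t.IsOrd) : ∃ a : O, t = .ord a := by
  cases t with
  | nat n => exact h.elim
  | ord a => exact ⟨a, rfl⟩
  | pr s t => exact h.elim

theorem thm : G_MIN := by
  intro k w S S' hC hex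
  have hsom : SOM k S S' := hC.som
  have hcon : SOM k (Con k) (Con k) := hC.con
  have hbad : ∃ τ, Bad k w τ S' := ⟨k, hex⟩
  obtain ⟨τ, hτ, hmin⟩ := (wellFounded_lt : WellFounded (· < · : O → O → Prop)).has_min
    {τ | Bad k w τ S'} hbad
  have hmin' : ∀ x < τ, ¬ Bad k w x S' := fun x hx hb => hmin x hb hx
  obtain ⟨c, hcf, hcS, hcn⟩ := hτ
  have hw0 : (0 : O) < w := lt_of_lt_of_le Ordinal.omega0_pos hC.omw.le
  -- w < τ
  have tw : w < τ := by
    by_contra hlt
    push Not at hlt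
    apply hcn
    refine hC.h1 _ hcS ?_
    rintro p ⟨a, ha, rfl⟩
    exact pr_mem.2 ⟨ha, D_mono (Iio_subset_Iio hlt) (hcf a ha).2⟩
  -- τ < k
  have tk : τ < k := by
    obtain ⟨d, hd, hd'⟩ := hsom.bdd _ (hsom.sub hcS)
    by_contra hlt
    push Not at hlt
    refine hmin' d (lt_of_lt_of_le hd hlt) ⟨c, ?_, hcS, hcn⟩
    intro a ha
    refine ⟨(hcf a ha).1, ?_⟩
    exact (pr_mem.1 (hd' (mem_gr.2 ⟨ha, rfl⟩))).2
  -- limit
  have tlim : Order.IsSuccLimit τ := by
    by_contra hnl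
    have hne : τ ≠ 0 := (lt_trans hw0 tw).ne'
    obtain ⟨τ', hτ'⟩ : ∃ τ', τ = Order.succ τ' := by
      rcases Ordinal.zero_or_succ_or_isSuccLimit τ with h | ⟨a, ha⟩ | h
      · exact absurd h hne
      · exact ⟨a, ha.symm⟩
      · exact absurd h hnl
    have hlt : τ' < τ := hτ' ▸ Order.lt_succ τ'
    have hwτ' : w ≤ τ' := Order.lt_succ_iff.1 (hτ' ▸ tw)
    have hτ'k : τ' < k := hlt.trans tk
    have h0 : (0 : O) < τ' := lt_of_lt_of_le hw0 hwτ'
    classical
    obtain ⟨C, hCdef⟩ : ∃ C, C = gr (D (Iio w)) c := ⟨_, rfl⟩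
    rw [← hCdef] at hcS hcn
    let c' : T → T := fun a => if c a = .ord τ' then .ord 0 else c a
    have hc'f : OrdFn w τ' c' := by
      intro a ha
      by_cases hca : c a = .ord τ'
      · have : c' a = .ord 0 := if_pos hca
        rw [this]
        exact ⟨trivial, ord_mem.2 h0⟩
      · have : c' a = c a := if_neg hca
        rw [this]
        refine ⟨(hcf a ha).1, ?_⟩
        obtain ⟨x, hx⟩ := isOrd_eq (hcf a ha).1
        rw [hx]
        have h1 : x < τ := ord_mem.1 (hx ▸ (hcf a ha).2)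
        have h2 : x ≤ τ' := Order.lt_succ_iff.1 (hτ' ▸ h1)
        refine ord_mem.2 (lt_of_le_of_ne h2 fun h => hca ?_)
        rw [hx, h]
    have hCmem : ∀ a y, Tr.pr a y ∈ C ↔ a ∈ D (Iio w) ∧ y = c a := by
      intro a y
      rw [hCdef]
      exact mem_gr
    have hCpr : ∀ p ∈ C, p = .pr p.fst p.snd := by
      rw [hCdef]
      rintro p ⟨a, ha, rfl⟩
      rfl
    -- the modified function is in S'
    have h0k : (0 : O) < k := h0.trans hτ'k
    have hC'S : gr (D (Iio w)) c' ∈ S' := by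
      refine SOM.of_SD (S := S) hτ'k (gr_sub hwτ' hc'f) ?_
      have hSD : SD k S S' (fun e _ => (e ∈ C ∧ ¬ e.snd = .ord τ') ∨
          (Tr.pr e.fst (.ord τ') ∈ C ∧ e = .pr e.fst (.ord 0))) := by
        apply_rules [SD.exT, SD.allT, SD.exS, SD.allS, SD.isOrd, SD.llt, SD.mem, SD.eq, SD.not,
          SD.and, SD.or, SD.iff, SD.imp, ST.id, ST.fst, ST.snd, ST.pr, ST.nat, ST.ordc, SV.var,
          SV.par, SD.app2, SD.const]
      refine hSD.congr ?_
      intro e _ σ _
      constructor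
      · rintro (⟨h1, h2⟩ | ⟨h1, h2⟩)
        · have h3 := hCpr e h1
          rw [h3] at h1
          obtain ⟨h4, h5⟩ := (hCmem _ _).1 h1
          rw [h3]
          refine mem_gr.2 ⟨h4, ?_⟩
          rw [h5] at h2 ⊢
          exact (if_neg h2).symm
        · obtain ⟨h4, h5⟩ := (hCmem _ _).1 h1
          rw [h2]
          refine mem_gr.2 ⟨h4, ?_⟩
          exact (if_pos h5.symm).symm
      · rintro ⟨a, ha, rfl⟩
        by_cases hca : c a = .ord τ'
        · right
          have h1 : c' a = .ord 0 := if_pos hca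
          refine ⟨(hCmem _ _).2 ⟨ha, hca.symm⟩, ?_⟩
          rw [h1]
          rfl
        · left
          have h1 : c' a = c a := if_neg hca
          rw [h1]
          exact ⟨(hCmem _ _).2 ⟨ha, rfl⟩, hca⟩
    obtain ⟨A, hAdef⟩ : ∃ A : Set T, A = {a | a ∈ D (Iio w) ∧ c a = .ord τ'} := ⟨_, rfl⟩
    have hAS : A ∈ S' := by
      refine SOM.of_SD (S := S) hC.wk (fun a ha => ?_) ?_
      · rw [hAdef] at ha
        exact ha.1
      · have hSD : SD k S S' (fun e _ => Tr.pr e (.ord τ') ∈ C) := by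
          apply_rules [SD.exT, SD.allT, SD.exS, SD.allS, SD.isOrd, SD.llt, SD.mem, SD.eq, SD.not,
            SD.and, SD.or, SD.iff, SD.imp, ST.id, ST.fst, ST.snd, ST.pr, ST.nat, ST.ordc, SV.var,
            SV.par, SD.app2, SD.const]
        refine hSD.congr ?_
        intro e _ σ _
        rw [hCmem, hAdef]
        exact and_congr_right fun _ => eq_comm
    have hAC : A ∈ Con k := hC.h1 A hAS (fun a ha => by rw [hAdef] at ha; exact ha.1)
    have hC'C : gr (D (Iio w)) c' ∈ Con k := by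
      by_contra hn
      exact hmin' τ' hlt ⟨c', hc'f, hC'S, hn⟩
    obtain ⟨C', hC'def⟩ : ∃ C', C' = gr (D (Iio w)) c' := ⟨_, rfl⟩
    rw [← hC'def] at hC'C
    have hC'mem : ∀ a y, Tr.pr a y ∈ C' ↔ a ∈ D (Iio w) ∧ y = c' a := by
      intro a y
      rw [hC'def]
      exact mem_gr
    have hC'pr : ∀ p ∈ C', p = .pr p.fst p.snd := by
      rw [hC'def]
      rintro p ⟨a, ha, rfl⟩
      rfl
    apply hcn
    refine SOM.of_SD (S := Con k) tk ?_ ?_
    · rw [hCdef]
      exact gr_sub tw.le hcf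
    · have hSD : SD k (Con k) (Con k) (fun e _ => (e ∈ C' ∧ ¬ e.fst ∈ A) ∨
          (e.fst ∈ A ∧ e = .pr e.fst (.ord τ'))) := by
        apply_rules [SD.exT, SD.allT, SD.exS, SD.allS, SD.isOrd, SD.llt, SD.mem, SD.eq, SD.not,
          SD.and, SD.or, SD.iff, SD.imp, ST.id, ST.fst, ST.snd, ST.pr, ST.nat, ST.ordc, SV.var,
          SV.par, SD.app2, SD.const]
      refine hSD.congr ?_
      intro e _ σ _
      constructor
      · rintro (⟨h1, h2⟩ | ⟨h1, h2⟩)
        · have h3 := hC'pr e h1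
          rw [h3] at h1
          obtain ⟨h4, h5⟩ := (hC'mem _ _).1 h1
          rw [h3]
          refine (hCmem _ _).2 ⟨h4, ?_⟩
          have h6 : ¬ c e.fst = .ord τ' := fun h => h2 (by rw [hAdef]; exact ⟨h4, h⟩)
          rw [h5]
          exact if_neg h6
        · rw [hAdef] at h1
          rw [h2]
          exact (hCmem _ _).2 ⟨h1.1, h1.2.symm⟩
      · intro he
        have h3 := hCpr e he
        have he' := he
        rw [h3] at he'
        obtain ⟨h4, h5⟩ := (hCmem _ _).1 he'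
        by_cases hca : c e.fst = .ord τ'
        · right
          refine ⟨by rw [hAdef]; exact ⟨h4, hca⟩, ?_⟩
          rw [← hca, ← h5]
          exact h3
        · left
          refine ⟨?_, fun h => ?_⟩
          · rw [h3]
            refine (hC'mem _ _).2 ⟨h4, ?_⟩
            rw [h5]
            exact (if_neg hca).symm
          · rw [hAdef] at h
            exact hca h.2
  refine ⟨τ, c,
    { tw := tw
      tk := tk
      tlim := tlim
      cf := hcf
      cS := hcS
      cn := hcn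
      unb := ?_
      min := ?_ }⟩
  · intro x hx
    by_contra hne
    push Not at hne
    refine hmin' x hx ⟨c, ?_, hcS, hcn⟩
    intro a ha
    refine ⟨(hcf a ha).1, ?_⟩
    obtain ⟨y, hy⟩ := isOrd_eq (hcf a ha).1
    rw [hy]
    exact ord_mem.2 (hne a ha y hy)
  · intro x hx c' hc' hS'
    by_contra hn
    exact hmin' x hx ⟨c', hc', hS', hn⟩

end Pool.Agent.Helper17.OD.PkMIN
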