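import Pool.Agent.Helper17.OD.GoalsGM

/-!
# Packet SMT: `Con θ` is a second order structure
-/

namespace Pool.Agent.Helper17.OD.PkSMT

open Pool.Agent.Helper17.OD
open Set
open Cardinal hiding univ

theorem ofCode_inj : ∀ c d : Code, (Tr.ofCode c : T) = Tr.ofCode d → c = d := by
  intro c
  induction c with
  | nat n =>
    intro d h
    cases d with
    | nat m => simpa [Tr.ofCode, Tr.map] using h
    | ord a => exact a.elim
    | pr s t => simp [Tr.ofCode, Tr.map] at h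
  | ord a => exact a.elim
  | pr s t hs ht =>
    intro d h
    cases d with
    | nat m => simp [Tr.ofCode, Tr.map] at h
    | ord a => exact a.elim
    | pr s' t' =>
      simp only [Tr.ofCode, Tr.map, Tr.pr.injEq] at h
      rw [hs s' h.1, ht t' h.2]

theorem ofCode_mem (A : Set O) : ∀ c : Code, (Tr.ofCode c : T) ∈ D A := by
  intro c
  induction c with
  | nat n => exact nat_mem n A
  | ord a => exact a.elim
  | pr s t hs ht => exact pr_mem.2 ⟨hs, ht⟩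

/-- A tree below a limit is below a smaller ordinal. -/
theorem exists_bound {θ : O} (hθ : Order.IsSuccLimit θ) : ∀ t : T, t ∈ D (Iio θ) →
    ∃ b < θ, t ∈ D (Iio b) := by
  intro t
  induction t with
  | nat n =>
    intro _
    exact ⟨0, hθ.bot_lt, nat_mem _ _⟩
  | ord a =>
    intro h
    have ha : a < θ := ord_mem.1 h
    exact ⟨Order.succ a, hθ.succ_lt ha, ord_mem.2 (Order.lt_succ a)⟩
  | pr s t hs ht =>
    intro h
    obtain ⟨h1, h2⟩ := pr_mem.1 h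
    obtain ⟨b, hb, hb'⟩ := hs h1
    obtain ⟨c, hc, hc'⟩ := ht h2
    exact ⟨max b c, max_lt hb hc, pr_mem.2 ⟨D_mono (Iio_subset_Iio (le_max_left _ _)) hb',
      D_mono (Iio_subset_Iio (le_max_right _ _)) hc'⟩⟩

theorem mem_dec {b : O} {φ : Code} {v x : T} :
    x ∈ dec (.pr (.ord b) (.pr (Tr.ofCode φ) v)) ↔
      v ∈ D (Iio b) ∧ x ∈ D (Iio b) ∧ Tru b φ (.pr x v) := by
  constructor
  · rintro ⟨b', φ', v', h, h1, h2, h3⟩
    simp only [Tr.pr.injEq, Tr.ord.injEq] at h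
    obtain ⟨rfl, hφ, rfl⟩ := h
    have := ofCode_inj _ _ hφ
    subst this
    exact ⟨h1, h2, h3⟩
  · rintro ⟨h1, h2, h3⟩
    exact ⟨b, φ, v, rfl, h1, h2, h3⟩

theorem tid : TT (fun e => e) := ⟨.nat 0, fun _ => rfl⟩
theorem tnat (n : ℕ) : TT (fun _ => .nat n) := ⟨.nat (n + 1), fun _ => rfl⟩
theorem tfst {t : T → T} (h : TT t) : TT (fun e => (t e).fst) := by
  obtain ⟨c, hc⟩ := h
  exact ⟨.pr (.nat 0) c, fun e => by simp [tval, hc]⟩
theorem tsnd {t : T → T} (h : TT t) : TT (fun e => (t e).snd) := by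
  obtain ⟨c, hc⟩ := h
  exact ⟨.pr (.nat 1) c, fun e => by simp [tval, hc]⟩
theorem tpr {s t : T → T} (hs : TT s) (ht : TT t) : TT (fun e => .pr (s e) (t e)) := by
  obtain ⟨c, hc⟩ := hs
  obtain ⟨d, hd⟩ := ht
  exact ⟨.pr (.nat 2) (.pr c d), fun e => by simp [tval, hc, hd]⟩

theorem comp_aux (hTRS : G_TRS) (hLSR : G_LSR) (hTDC : G_TDC) {θ : O}
    (hr : RReg θ) (hl : Order.IsSuccLimit θ) (ho : Ordinal.omega0 < θ) (φ : SF) (e : T)
    (he : e ∈ D (Iio θ)) (σ : ℕ → Set T) (hσ : ∀ i, σ i ∈ Con θ) (d : O) (hd : d < θ) :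
    {x | x ∈ D (Iio d) ∧ Sat θ (Con θ) φ (.pr x e) σ} ∈ Con θ := by
  obtain ⟨hT1, hT2, hT3⟩ := hTRS
  obtain ⟨c, hc⟩ := hT1 φ
  obtain ⟨n, hn⟩ := hT2 φ
  obtain ⟨K, hK, hKσ⟩ := hT3 θ σ n hσ
  obtain ⟨-, -, -, -, -, -, hand, -, -, -, -, -, -, htru, htop⟩ := hTDC
  -- the code
  have hcode : TDef (fun a E => TruT (E.snd.fst)
      (Tr.ofCode (.pr (.nat 0) (.pr (.nat 0) (.nat 0)) : Code)) E.fst ∧
      Tru a c (.pr (.pr E.fst E.snd.snd.fst) E.snd.snd.snd)) :=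
    hand _ _ (htru _ _ _ (tfst (tsnd tid)) (tpr (tnat 0) (tpr (tnat 0) (tnat 0))) (tfst tid))
      (htop c _ (tpr (tpr (tfst tid) (tfst (tsnd (tsnd tid)))) (tsnd (tsnd (tsnd tid)))))
  obtain ⟨c', hc'⟩ := hcode
  obtain ⟨b1, hb1, he1⟩ := exists_bound hl e he
  obtain ⟨b2, hb2, hK2⟩ := exists_bound hl K hK
  obtain ⟨a, hba, haθ, hal, ha⟩ := hLSR θ hr hl ho c (max d (max b1 b2))
    (max_lt hd (max_lt hb1 hb2))
  have hda : d < a := (le_max_left _ _).trans_lt hba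
  have hb1a : b1 < a := ((le_max_left _ _).trans (le_max_right _ _)).trans_lt hba
  have hb2a : b2 < a := ((le_max_right _ _).trans (le_max_right _ _)).trans_lt hba
  have hea : e ∈ D (Iio a) := D_mono (Iio_subset_Iio hb1a.le) he1
  have hKa : K ∈ D (Iio a) := D_mono (Iio_subset_Iio hb2a.le) hK2
  have hv : (Tr.pr (.ord d) (.pr e K) : T) ∈ D (Iio a) :=
    pr_mem.2 ⟨ord_mem.2 hda, pr_mem.2 ⟨hea, hKa⟩⟩
  refine ⟨.pr (.ord a) (.pr (Tr.ofCode c') (.pr (.ord d) (.pr e K))), ?_, ?_⟩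
  · exact pr_mem.2 ⟨ord_mem.2 haθ, pr_mem.2 ⟨ofCode_mem _ _,
      D_mono (Iio_subset_Iio haθ.le) hv⟩⟩
  · ext x
    rw [mem_dec]
    have hsat : ∀ x ∈ D (Iio d), (Tru a c (.pr (.pr x e) K) ↔ Sat θ (Con θ) φ (.pr x e) σ) := by
      intro x hx
      have hxa : x ∈ D (Iio a) := D_mono (Iio_subset_Iio hda.le) hx
      have hxθ : x ∈ D (Iio θ) := D_mono (Iio_subset_Iio hd.le) hx
      rw [ha _ (pr_mem.2 ⟨pr_mem.2 ⟨hxa, hea⟩, hKa⟩), hc θ hl _ (pr_mem.2 ⟨hxθ, he⟩) K hK]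
      exact hn θ (Con θ) _ _ _ hKσ
    constructor
    · rintro ⟨hx, hS⟩
      have hxa : x ∈ D (Iio a) := D_mono (Iio_subset_Iio hda.le) hx
      refine ⟨hv, hxa, ?_⟩
      rw [hc' a _ (pr_mem.2 ⟨hxa, hv⟩)]
      refine ⟨⟨d, _, rfl, rfl, hx, ?_⟩, ?_⟩
      · rw [tru_eq]
        rfl
      · exact (hsat x hx).2 hS
    · rintro ⟨-, hxa, hT⟩
      rw [hc' a _ (pr_mem.2 ⟨hxa, hv⟩)] at hT
      obtain ⟨⟨b, c1, hb, -, hx, -⟩, hT2⟩ := hT
      have hbd : d = b := by simpa [Tr.fst, Tr.snd] using hb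
      subst hbd
      exact ⟨hx, (hsat x hx).1 hT2⟩

theorem thm (hTRS : G_TRS) (hLSR : G_LSR) (hTDC : G_TDC) : G_SMT := by
  intro θ hr hl ho
  refine
    { lim := hl
      omg := ho
      sub := subset_rfl
      emp := ⟨.nat 0, nat_mem _ _, ?_⟩
      bdd := ?_
      compS := fun φ e he σ hσ d hd => comp_aux hTRS hLSR hTDC hr hl ho φ e he σ hσ d hd
      comp := fun φ e he σ hσ d hd => comp_aux hTRS hLSR hTDC hr hl ho φ e he σ hσ d hd
      coll := ?_ }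
  · symm
    rw [Set.eq_empty_iff_forall_notMem]
    rintro x ⟨b, φ, v, h, -⟩
    simp at h
  · rintro X ⟨c, hc, rfl⟩
    by_cases hne : (dec c).Nonempty
    · obtain ⟨x, b, φ, v, h, -⟩ := hne
      subst h
      refine ⟨b, ord_mem.1 (pr_mem.1 hc).1, ?_⟩
      intro y hy
      exact (mem_dec.1 hy).2.1
    · refine ⟨0, hl.bot_lt, ?_⟩
      rw [Set.not_nonempty_iff_eq_empty.1 hne]
      exact Set.empty_subset _
  · intro φ e _ σ _ d hd hx
    classical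
    have h1 : ∀ x ∈ D (Iio d), ∃ b < θ, ∃ y ∈ D (Iio b), Sat θ (Con θ) φ (.pr y (.pr x e)) σ := by
      intro x hx'
      obtain ⟨y, hy, hS⟩ := hx x hx'
      obtain ⟨b, hb, hyb⟩ := exists_bound hl y hy
      exact ⟨b, hb, y, hyb, hS⟩
    choose! g hg1 hg2 using h1
    obtain ⟨b, hb, hb2⟩ := hr d hd g hg1
    refine ⟨b, hb, fun x hx' => ?_⟩
    obtain ⟨y, hy, hS⟩ := hg2 x hx'
    exact ⟨y, D_mono (Iio_subset_Iio (hb2 x hx').le) hy, hS⟩

end Pool.Agent.Helper17.OD.PkSMT
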